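import Mathlib

namespace Pool.Agent.H.MP_b0fe5a_al

abbrev F := ZMod 3

@[ext] structure NN where
  al : F
  ze : F
  mu : F
  de : F
  w0 : F
  w1 : F
  w2 : F
  p0 : F
  p1 : F
  p2 : F
  q0 : F
  q1 : F
  q2 : F
  f0 : F
  f1 : F
  f2 : F
deriving DecidableEq

def b0 (y z : NN) : F :=
  y.al * (z.w0 + z.w1 + z.w2) - z.al * (y.w0 + y.w1 + y.w2) +
    (y.p0 * z.q0 - y.q0 * z.p0) + (y.p1 * z.q1 - y.q1 * z.p1) + (y.p2 * z.q2 - y.q2 * z.p2)

def c0 (y z : NN) : F := y.w0 * z.p0 - z.w0 * y.p0 + y.de * z.q0 - z.de * y.q0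

def c1 (y z : NN) : F :=
  y.w1 * z.p1 - z.w1 * y.p1 + (y.de - y.mu) * z.q1 - (z.de - z.mu) * y.q1

def c2 (y z : NN) : F :=
  y.w2 * z.p2 - z.w2 * y.p2 + (y.de + y.mu) * z.q2 - (z.de + z.mu) * y.q2

instance : Mul NN := ⟨fun y z =>
  ⟨y.al + z.al, y.ze + z.ze + (y.al * y.al * z.al + y.al * z.al * z.al) + b0 y z,
    y.mu + z.mu, y.de + z.de, y.w0 + z.w0, y.w1 + z.w1, y.w2 + z.w2,
    y.p0 + z.p0, y.p1 + z.p1, y.p2 + z.p2, y.q0 + z.q0, y.q1 + z.q1, y.q2 + z.q2,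
    y.f0 + z.f0 + c0 y z, y.f1 + z.f1 + c1 y z, y.f2 + z.f2 + c2 y z⟩⟩

instance : One NN := ⟨⟨0, 0, 0, 0, 0, 0, 0, 0, 0, 0, 0, 0, 0, 0, 0, 0⟩⟩

instance : Inv NN := ⟨fun y =>
  ⟨-y.al, -y.ze, -y.mu, -y.de, -y.w0, -y.w1, -y.w2, -y.p0, -y.p1, -y.p2, -y.q0, -y.q1, -y.q2,
    -y.f0, -y.f1, -y.f2⟩⟩

theorem mul_def (y z : NN) : y * z =
  ⟨y.al + z.al, y.ze + z.ze + (y.al * y.al * z.al + y.al * z.al * z.al) + b0 y z,
    y.mu + z.mu, y.de + z.de, y.w0 + z.w0, y.w1 + z.w1, y.w2 + z.w2,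
    y.p0 + z.p0, y.p1 + z.p1, y.p2 + z.p2, y.q0 + z.q0, y.q1 + z.q1, y.q2 + z.q2,
    y.f0 + z.f0 + c0 y z, y.f1 + z.f1 + c1 y z, y.f2 + z.f2 + c2 y z⟩ := rfl

theorem one_def : (1 : NN) = ⟨0, 0, 0, 0, 0, 0, 0, 0, 0, 0, 0, 0, 0, 0, 0, 0⟩ := rfl

theorem inv_def (y : NN) : y⁻¹ =
  ⟨-y.al, -y.ze, -y.mu, -y.de, -y.w0, -y.w1, -y.w2, -y.p0, -y.p1, -y.p2, -y.q0, -y.q1, -y.q2,
    -y.f0, -y.f1, -y.f2⟩ := rfl

instance : Group NN := Group.ofLeftAxioms
  (fun a b c => by ext <;> simp only [mul_def, b0, c0, c1, c2] <;> ring)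
  (fun a => by ext <;> simp only [mul_def, one_def, b0, c0, c1, c2] <;> ring)
  (fun a => by ext <;> simp only [mul_def, one_def, inv_def, b0, c0, c1, c2] <;> ring)

def toFun (y : NN) : Fin 16 → F :=
  ![y.al, y.ze, y.mu, y.de, y.w0, y.w1, y.w2, y.p0, y.p1, y.p2, y.q0, y.q1, y.q2, y.f0, y.f1, y.f2]

instance : Finite NN := Finite.of_injective toFun fun y z h => by
  ext
  exacts [congrFun h 0, congrFun h 1, congrFun h 2, congrFun h 3, congrFun h 4, congrFun h 5,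
    congrFun h 6, congrFun h 7, congrFun h 8, congrFun h 9, congrFun h 10, congrFun h 11,
    congrFun h 12, congrFun h 13, congrFun h 14, congrFun h 15]

def rot (y : NN) : NN :=
  ⟨y.al, y.ze + y.de, y.mu, y.de + y.mu, y.w2, y.w0, y.w1, y.p2, y.p0, y.p1, y.q2, y.q0, y.q1,
    y.f2, y.f0, y.f1⟩

def sg (a b c : F) (y : NN) : NN :=
  ⟨y.al, y.ze, y.mu, y.de, y.w0, y.w1, y.w2, a * y.p0, b * y.p1, c * y.p2, a * y.q0, b * y.q1,
    c * y.q2, a * y.f0, b * y.f1, c * y.f2⟩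

theorem h3 : (3 : F) = 0 := rfl

theorem rot_mul (y z : NN) : rot (y * z) = rot y * rot z := by
  ext <;> simp only [mul_def, rot, b0, c0, c1, c2] <;> grind [h3]

theorem rot3 (y : NN) : rot (rot (rot y)) = y := by
  ext <;> simp only [rot] <;> grind [h3]

theorem sg_mul {a b c : F} (ha : a * a = 1) (hb : b * b = 1) (hc : c * c = 1) (y z : NN) :
    sg a b c (y * z) = sg a b c y * sg a b c z := by
  ext <;> simp only [mul_def, sg, b0, c0, c1, c2] <;> grind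

theorem sg_sg (a b c a' b' c' : F) (y : NN) :
    sg a b c (sg a' b' c' y) = sg (a * a') (b * b') (c * c') y := by
  ext <;> simp only [sg, mul_assoc]

theorem rot_sg (a b c : F) (y : NN) : rot (sg a b c y) = sg c a b (rot y) := rfl

theorem sg_one (y : NN) : sg 1 1 1 y = y := by
  ext <;> simp only [sg, one_mul]

structure KK where
  a : Bool
  b : Bool
  r : Fin 3
deriving DecidableEq, Fintype

instance : Mul KK := ⟨fun k l =>
  if k.r = 0 then ⟨xor k.a l.a, xor k.b l.b, l.r⟩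
  else if k.r = 1 then ⟨xor k.a (xor l.a l.b), xor k.b l.a, l.r + 1⟩
  else ⟨xor k.a l.b, xor k.b (xor l.a l.b), l.r + 2⟩⟩

instance : One KK := ⟨⟨false, false, 0⟩⟩

instance : Inv KK := ⟨fun k =>
  if k.r = 0 then k else if k.r = 1 then ⟨k.b, xor k.a k.b, 2⟩ else ⟨xor k.a k.b, k.a, 1⟩⟩

instance : Group KK := Group.ofLeftAxioms (by decide +kernel) (by decide +kernel)
  (by decide +kernel)

def sn (a : Bool) : F := if a then -1 else 1

def rotn (r : Fin 3) (y : NN) : NN := if r = 0 then y else if r = 1 then rot y else rot (rot y)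

def act (k : KK) (y : NN) : NN := sg (sn k.a) (sn k.b) (sn (xor k.a k.b)) (rotn k.r y)

theorem sn_sq (a : Bool) : sn a * sn a = 1 := by cases a <;> decide

theorem sn_xor (a b : Bool) : sn (xor a b) = sn a * sn b := by cases a <;> cases b <;> decide

theorem act_mul (k l : KK) (y : NN) : act (k * l) y = act k (act l y) := by
  obtain ⟨a, b, r⟩ := k
  obtain ⟨a', b', r'⟩ := l
  have h1 := sn_sq a
  have h2 := sn_sq b
  have h3 := sn_sq a'
  have h4 := sn_sq b'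
  fin_cases r <;> fin_cases r' <;>
    simp [act, HMul.hMul, Mul.mul, rotn, rot_sg, sg_sg, rot3] <;>
    (congr 1 <;> cases a <;> cases b <;> cases a' <;> cases b' <;> rfl)

instance : MulDistribMulAction KK NN where
  smul := act
  one_smul y := sg_one y
  mul_smul := act_mul
  smul_mul k y z := by
    change act k (y * z) = act k y * act k z
    unfold act
    rw [← sg_mul (sn_sq _) (sn_sq _) (sn_sq _)]
    congr 1
    unfold rotn
    split_ifs <;> simp only [rot_mul]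
  smul_one k := by
    change act k 1 = 1
    revert k
    decide +kernel

end Pool.Agent.H.MP_b0fe5a_al
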