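import Pool.Agent.H.MP_b0fe5a_al.A

namespace Pool.Agent.H.MP_b0fe5a_al

theorem cube (a : F) : a * a * a = a := by revert a; decide

theorem sq1 {a : F} (h : a ≠ 0) : a * a = 1 := by revert a; decide

def addZ (t : F) (y : NN) : NN := { y with ze := y.ze + t }

theorem pow3 (y : NN) : y ^ 3 = addZ (-y.al) 1 := by
  have h := cube y.al
  ext <;> simp only [pow_succ, pow_zero, one_mul, mul_def, one_def, addZ, b0, c0, c1, c2] <;>
    grind [h3]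

theorem addZ_one_mul (t : F) (y : NN) : addZ t 1 * y = addZ t y := by
  ext <;> simp only [mul_def, one_def, addZ, b0, c0, c1, c2] <;> ring

theorem pow4 (y : NN) : y ^ 4 = addZ (-y.al) y := by
  rw [pow_succ, pow3, addZ_one_mul]

theorem pow7 (y : NN) : y ^ 7 = addZ y.al y := by
  rw [show 7 = 3 + 4 from rfl, pow_add, pow3, pow4, addZ_one_mul]
  ext <;> simp only [addZ]
  grind [h3]

theorem pow9 (y : NN) : y ^ 9 = 1 := by
  rw [show 9 = 3 * 3 from rfl, pow_mul, pow3, pow3]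
  ext <;> simp [addZ, one_def]

theorem conjN (n y : NN) (hb : b0 n y = y.al) (h0 : c0 n y = 0) (h1 : c1 n y = 0)
    (h2 : c2 n y = 0) : n * y = addZ (-y.al) y * n := by
  simp only [b0, c0, c1, c2] at hb h0 h1 h2
  ext <;> simp only [mul_def, addZ, b0, c0, c1, c2] <;> grind [h3]

theorem dich : ∀ al w p q D : F, (D = -al ∧ p ≠ 0 ∧ q = al * p * w) ∨
    ∃ a b c : F, -al * a + b * q - c * p = al ∧ a * p - w * b - D * c = 0 := by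
  decide +kernel

theorem sn_surj : ∀ p : F, p ≠ 0 → ∃ a, sn a = p := by decide

theorem coreN (y : NN) : ∃ (n : NN) (k : KK), n * act k y = addZ (-y.al) y * n := by
  have one : ∀ n : NN, n * y = addZ (-y.al) y * n →
      ∃ (n : NN) (k : KK), n * act k y = addZ (-y.al) y * n := fun n h =>
    ⟨n, 1, by rw [← h]; congr 1; exact one_smul KK y⟩
  by_cases ha : y.al = 0
  · refine one 1 (conjN _ _ ?_ ?_ ?_ ?_) <;> simp [one_def, b0, c0, c1, c2, ha]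
  have ha2 := sq1 ha
  by_cases hs : y.w0 + y.w1 + y.w2 = 0
  swap
  · have := sq1 hs
    refine one ⟨y.al * (y.w0 + y.w1 + y.w2), 0, 0, 0, 0, 0, 0, 0, 0, 0, 0, 0, 0, 0, 0, 0⟩
      (conjN _ _ ?_ ?_ ?_ ?_) <;> simp only [b0, c0, c1, c2] <;> grind
  rcases dich y.al y.w0 y.p0 y.q0 y.de with ⟨d0, e0, g0⟩ | ⟨a, b, c, u, v⟩
  swap
  · refine one ⟨0, 0, 0, 0, a, 0, 0, b, 0, 0, c, 0, 0, 0, 0, 0⟩
      (conjN _ _ ?_ ?_ ?_ ?_) <;> simp only [b0, c0, c1, c2] <;> grind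
  rcases dich y.al y.w1 y.p1 y.q1 (y.de - y.mu) with ⟨d1, e1, g1⟩ | ⟨a, b, c, u, v⟩
  swap
  · refine one ⟨0, 0, 0, 0, 0, a, 0, 0, b, 0, 0, c, 0, 0, 0, 0⟩
      (conjN _ _ ?_ ?_ ?_ ?_) <;> simp only [b0, c0, c1, c2] <;> grind
  rcases dich y.al y.w2 y.p2 y.q2 (y.de + y.mu) with ⟨d2, e2, g2⟩ | ⟨a, b, c, u, v⟩
  swap
  · refine one ⟨0, 0, 0, 0, 0, 0, a, 0, 0, b, 0, 0, c, 0, 0, 0⟩
      (conjN _ _ ?_ ?_ ?_ ?_) <;> simp only [b0, c0, c1, c2] <;> grind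
  have s0 := sq1 e0
  have s1 := sq1 e1
  have s2 := sq1 e2
  have hm : y.mu = 0 := by grind
  by_cases hw : y.w2 - y.w1 = 0
  swap
  · have := sq1 hw
    refine one ⟨0, 0, y.al * (y.w2 - y.w1), 0, 0, 0, 0, 0, 0, 0, 0,
      (y.w2 - y.w1) * y.q1, -(y.w2 - y.w1) * y.q2, 0, 0, 0⟩
      (conjN _ _ ?_ ?_ ?_ ?_) <;> simp only [b0, c0, c1, c2] <;> grind
  obtain ⟨a, hsa⟩ := sn_surj (y.p0 * y.p2) (mul_ne_zero e0 e2)
  obtain ⟨b, hsb⟩ := sn_surj (y.p0 * y.p1) (mul_ne_zero e0 e1)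
  have w21 : y.w2 = y.w1 := by grind
  have w01 : y.w0 = y.w1 := by grind [h3]
  refine ⟨⟨0, 0, 0, 0, y.p2 * y.f2 - y.p0 * y.f0, y.p0 * y.f0 - y.p1 * y.f1,
    y.p1 * y.f1 - y.p2 * y.f2, 0, 0, 0, 0, 0, 0, 0, 0, 0⟩, ⟨a, b, 1⟩, ?_⟩
  have : act ⟨a, b, 1⟩ y = sg (y.p0 * y.p2) (y.p0 * y.p1) (y.p0 * y.p2 * (y.p0 * y.p1)) (rot y) := by
    rw [act, sn_xor, hsa, hsb]; rfl
  rw [this]
  ext <;> simp only [mul_def, addZ, b0, c0, c1, c2, sg, rot] <;> grind [h3]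

end Pool.Agent.H.MP_b0fe5a_al
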