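import Pool.Agent.H.MP_b0fe5a_al.B

namespace Pool.Agent.H.MP_b0fe5a_al

def tab : ℕ := 0x118618002246180000061800118918002249180000091800118018002240180000001800118624002246240000062400118924002249240000092400118024002240240000002400118600002246000000060000118900002249000000090000118000002240000000000000021618002096180011561800106918000129180022a91800218018021240180200001840021624002096240011562400106924000129240022a9240021856480124aa48000002440021600002096000011560000106900000129000022a90000218a80001245400000000040006618000126180002a61800021918000099180001591800018018010240180100001880006624000126240002a62400021924000099240001592400018aa4400245644000002480006600000126000002a6000002190000009900000159000001854000024a800000000080206618000126180012a61800021918001099180021591800118018012240180100001880206624000126240012a62400021924001099240021592400118aa4402245644000002480206600000126000012a6000002190000109900002159000011854000224a800000000080218618001246180000061800218918001249180000091800218018001240180000001800218624001246240000062400218924001249240000092400218024001240240000002400218600001246000000060000218900001249000000090000218000001240000000000000021618000096180001561800006918000129180002a918000180180202401802000018400216240000962400015624000069240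00129240002a9240001856480024aa48000002440021600000096000001560000006900000129000002a90000018a80000245400000000040021618001096180021561800206918000129180012a91800118018022240180200001840021624001096240021562400206924000129240012a9240011856480224aa48000002440021600001096000021560000206900000129000012a90000118a80002245400000000040106618000126180022a61800021918002099180011591800218018011240180100001880106624000126240022a62400021924002099240011592400218aa4401245644000002480106600000126000022a6000002190000209900001159000021854000124a800000000080018618000246180000061800018918000249180000091800018018000240180000001800018624000246240000062400018924000249240000092400018024000240240000002400018600000246000000060000018900000249000000090000018000000240000000000000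

def te (k i : ℕ) : F := ((tab >>> (2 * (16 * k + i))) % 4 : ℕ)

def tn (k : ℕ) : NN :=
  ⟨te k 0, te k 1, te k 2, te k 3, te k 4, te k 5, te k 6, te k 7, te k 8, te k 9, te k 10,
    te k 11, te k 12, te k 13, te k 14, te k 15⟩

def yy (al mu be pi ka : F) : NN := ⟨al, 0, mu, 0, be, 0, 0, pi, 0, 0, ka, 0, 0, 0, 0, 0⟩

def four (y : NN) : NN := y * (rot y * (rot (rot y) * y))

theorem tab_ok : ∀ al mu be pi ka : F,
    tn (81 * al.val + 27 * mu.val + 9 * be.val + 3 * pi.val + ka.val) * yy al mu be pi ka =
      four (yy al mu be pi ka) *
        rot (tn (81 * al.val + 27 * mu.val + 9 * be.val + 3 * pi.val + ka.val)) := by
  decide +kernel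

def addC (t a b c : F) (y : NN) : NN :=
  { y with ze := y.ze + t, f0 := y.f0 + a, f1 := y.f1 + b, f2 := y.f2 + c }

theorem addC_mul (t a b c t' a' b' c' : F) (y z : NN) :
    addC t a b c y * addC t' a' b' c' z = addC (t + t') (a + a') (b + b') (c + c') (y * z) := by
  ext <;> simp only [mul_def, addC, b0, c0, c1, c2] <;> ring

theorem rot_addC (t a b c : F) (y : NN) : rot (addC t a b c y) = addC t c a b (rot y) := by
  ext <;> simp only [rot, addC]
  ring

theorem addC_zero (y : NN) : addC 0 0 0 0 y = y := by
  ext <;> simp only [addC, add_zero]

theorem coreX0 (al ze mu be pi ka ph : F) :
    ∃ n : NN, n * addC ze ph 0 0 (yy al mu be pi ka) =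
      four (addC ze ph 0 0 (yy al mu be pi ka)) * rot n := by
  have h := tab_ok al mu be pi ka
  generalize tn _ = n at h
  generalize yy al mu be pi ka = y at h
  refine ⟨addC 0 0 ph (ph + ph) n, ?_⟩
  unfold four at h ⊢
  simp only [rot_addC, addC_mul]
  rw [h]
  congr 1 <;> grind [h3]

end Pool.Agent.H.MP_b0fe5a_al
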