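import Pool.Agent.H.MP_b0fe5a_al.C

namespace Pool.Agent.H.MP_b0fe5a_al

abbrev GG := NN ⋊[MulDistribMulAction.toMulAut KK NN] KK

instance : Finite GG := Finite.of_equiv _ SemidirectProduct.equivProd.symm

theorem gmul (y z : NN) (k l : KK) : (⟨y, k⟩ : GG) * ⟨z, l⟩ = ⟨y * act k z, k * l⟩ := rfl

theorem conj_of {n y y' : NN} {l k k' : KK} (h1 : l * k = k' * l)
    (h2 : n * act l y = y' * act k' n) : IsConj (⟨y, k⟩ : GG) ⟨y', k'⟩ := by
  refine isConj_iff.2 ⟨⟨n, l⟩, ?_⟩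
  rw [mul_inv_eq_iff_eq_mul, gmul, gmul, h1, h2]

theorem act_one (y : NN) : act 1 y = y := one_smul KK y

theorem conj_n (n y : NN) (k : KK) :
    IsConj (⟨y, k⟩ : GG) ⟨n * y * (act k n)⁻¹, k⟩ :=
  conj_of (n := n) (l := 1) (by simp) (by simp [act_one])

theorem gpow {y : NN} {k : KK} (h : act k y = y) (m : ℕ) :
    (⟨y, k⟩ : GG) ^ m = ⟨y ^ m, k ^ m⟩ := by
  induction m with
  | zero => rfl
  | succ m ih =>
    rw [pow_succ', ih, gmul, pow_succ', pow_succ']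
    congr 2
    change k • y ^ m = _
    rw [smul_pow']
    exact congrArg (· ^ m) h

theorem pow_eq_one_of (g : GG) (m : ℕ) (h : g.right ^ m = 1) : g ^ (m * 9) = 1 := by
  have h1 : (g ^ m).right = 1 := by
    rw [← h]; exact map_pow SemidirectProduct.rightHom g m
  rw [pow_mul]
  generalize g ^ m = u at h1
  obtain ⟨y, k⟩ := u
  obtain rfl : k = 1 := h1
  rw [gpow (act_one y), pow9, one_pow]
  rfl

def Good (g : GG) : Prop := g ^ 54 = 1 ∧ IsConj g (g ^ 7)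

theorem Good.conj {g h : GG} (hc : IsConj g h) (hh : Good h) : Good g := by
  refine ⟨?_, hc.trans (hh.2.trans (hc.pow 7).symm)⟩
  have := hc.pow 54
  rw [hh.1] at this
  exact isConj_one_left.1 this

theorem Good.inv {g : GG} (hh : Good g⁻¹) : Good g := by
  refine ⟨by simpa using hh.1, ?_⟩
  obtain ⟨c, hc⟩ := isConj_iff.1 hh.2
  refine isConj_iff.2 ⟨c, ?_⟩
  have := congrArg (·⁻¹) hc
  simpa [mul_assoc] using this

theorem conj_iter {M : Type*} [Monoid M] {g : M} {a : ℕ} (h : IsConj g (g ^ a)) (k : ℕ) :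
    IsConj g (g ^ a ^ k) := by
  induction k with
  | zero => simpa using IsConj.refl g
  | succ k ih =>
    refine ih.trans ?_
    have := h.pow (a ^ k)
    rwa [← pow_mul, ← pow_succ'] at this

theorem good_of_four {g : GG} (h : g ^ 27 = 1) (hc : IsConj g (g ^ 4)) : Good g := by
  refine ⟨by rw [show 54 = 27 * 2 from rfl, pow_mul, h, one_pow], ?_⟩
  have := conj_iter hc 8
  rwa [pow_eq_pow_mod _ h, show 4 ^ 8 % 27 = 7 by norm_num] at this

theorem good_one (y : NN) : Good ⟨y, 1⟩ := by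
  refine good_of_four (pow_eq_one_of _ 3 (one_pow 3)) ?_
  obtain ⟨n, k, h⟩ := coreN y
  rw [gpow (act_one y), pow4, one_pow]
  exact conj_of (n := n) (l := k) (by simp) (by rw [act_one, h])

def vv : KK := ⟨false, true, 0⟩

def xx : KK := ⟨false, false, 1⟩

theorem act_vv (y : NN) : act vv y = sg 1 (-1) (-1) y := rfl

theorem act_xx (y : NN) : act xx y = rot y := sg_one _

theorem good_v0 (y : NN) (h1 : y.p1 = 0) (h2 : y.p2 = 0) (h3' : y.q1 = 0) (h4 : y.q2 = 0)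
    (h5 : y.f1 = 0) (h6 : y.f2 = 0) : Good ⟨y, vv⟩ := by
  refine ⟨pow_eq_one_of _ 6 (by change vv ^ 6 = 1; decide), ?_⟩
  have hf : act vv y = y := by
    rw [act_vv]; ext <;> simp [sg, *]
  rw [gpow hf, pow7, show vv ^ 7 = vv by decide]
  refine conj_of (n := ⟨0, 0, 0, 0, 0, 1, 0, 0, 0, 0, 0, 0, 0, 0, 0, 0⟩) (l := 1) (by simp) ?_
  rw [act_one, act_vv]
  ext <;> simp only [mul_def, addZ, b0, c0, c1, c2, sg] <;> grind [h3]

theorem good_v1 (y : NN) (h1 : y.p1 = 0) (h2 : y.p2 = 0) (h3' : y.q1 = 0) (h4 : y.q2 = 0) :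
    Good ⟨y, vv⟩ := by
  refine Good.conj (conj_n ⟨0, 0, 0, 0, 0, 0, 0, 0, 0, 0, 0, 0, 0, 0, y.f1, y.f2⟩ y vv) ?_
  apply good_v0 <;> simp only [act_vv, mul_def, inv_def, c1, c2, sg] <;> grind [h3]

theorem good_v (y : NN) : Good ⟨y, vv⟩ := by
  refine Good.conj (conj_n ⟨0, 0, 0, 0, 0, 0, 0, 0, y.p1, y.p2, 0, y.q1, y.q2, 0, 0, 0⟩ y vv) ?_
  apply good_v1 <;> simp only [act_vv, mul_def, inv_def, sg] <;> grind [h3]

theorem good_x0 (y : NN) (h0 : y.de = 0) (h1 : y.w1 = 0) (h2 : y.w2 = 0) (h3' : y.p1 = 0)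
    (h4 : y.p2 = 0) (h5 : y.q1 = 0) (h6 : y.q2 = 0) (h7 : y.f1 = 0) (h8 : y.f2 = 0) :
    Good ⟨y, xx⟩ := by
  refine good_of_four (pow_eq_one_of _ 3 (by change xx ^ 3 = 1; decide)) ?_
  obtain ⟨n, hn⟩ := coreX0 y.al y.ze y.mu y.w0 y.p0 y.q0 y.f0
  have hy : addC y.ze y.f0 0 0 (yy y.al y.mu y.w0 y.p0 y.q0) = y := by
    ext <;> simp [addC, yy, *]
  rw [hy] at hn
  have h4 : (⟨y, xx⟩ : GG) ^ 4 = ⟨four y, xx⟩ := by
    rw [pow_succ', pow_succ', pow_succ', pow_one, gmul, gmul, gmul, four,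
      show xx * (xx * (xx * xx)) = xx by decide]
    simp only [act_xx, rot_mul, rot3]
  rw [h4]
  exact conj_of (n := n) (l := 1) (by simp) (by rw [act_one, act_xx, hn])

theorem good_x1 (y : NN) (h0 : y.de = 0) (h1 : y.w1 = 0) (h2 : y.w2 = 0) (h3' : y.p1 = 0)
    (h4 : y.p2 = 0) (h5 : y.q1 = 0) (h6 : y.q2 = 0) : Good ⟨y, xx⟩ := by
  refine Good.conj
    (conj_n ⟨0, 0, 0, 0, 0, 0, 0, 0, 0, 0, 0, 0, 0, 0, -y.f1, -y.f1 - y.f2⟩ y xx) ?_
  apply good_x0 <;> simp only [act_xx, mul_def, inv_def, c1, c2, rot] <;> grind [h3]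

theorem good_x (y : NN) : Good ⟨y, xx⟩ := by
  refine Good.conj
    (conj_n ⟨0, 0, y.de, 0, 0, -y.w1, -y.w1 - y.w2, 0, -y.p1, -y.p1 - y.p2, 0, -y.q1,
      -y.q1 - y.q2, 0, 0, 0⟩ y xx) ?_
  apply good_x1 <;> simp only [act_xx, mul_def, inv_def, rot] <;> grind [h3]

theorem kcases : ∀ k : KK, ∃ l : KK, l * k = 1 * l ∨ l * k = vv * l ∨ l * k = xx * l ∨
    l * k⁻¹ = xx * l := by decide +kernel

theorem conj_k (y : NN) {l k k' : KK} (h : l * k = k' * l) :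
    IsConj (⟨y, k⟩ : GG) ⟨act l y, k'⟩ :=
  conj_of (n := 1) h (by rw [one_mul]; change _ = _ * k' • (1 : NN); rw [smul_one, mul_one])

theorem good (g : GG) : Good g := by
  obtain ⟨l, h | h | h | h⟩ := kcases g.right
  · exact Good.conj (conj_k g.left h) (good_one _)
  · exact Good.conj (conj_k g.left h) (good_v _)
  · exact Good.conj (conj_k g.left h) (good_x _)
  · exact Good.inv (Good.conj (conj_k (g⁻¹).left h) (good_x _))

theorem arith : ∀ o ∈ Nat.divisors 54, ∀ j < 54, Nat.gcd o j = 1 →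
    ∃ k < 9, j % o = 7 ^ k % o ∨ (j + 7 ^ k) % o = 0 := by decide +kernel

theorem cut (x y : GG) (h : Subgroup.zpowers y = Subgroup.zpowers x) :
    IsConj y x ∨ IsConj y x⁻¹ := by
  obtain ⟨h54, hc⟩ := good x
  have hy : y ∈ Subgroup.zpowers x := h ▸ Subgroup.mem_zpowers y
  obtain ⟨j, hj⟩ := (mem_powers_iff_mem_zpowers).2 hy
  have hj' : x ^ (j % 54) = y := by
    rw [← hj, ← pow_eq_pow_mod _ h54]
  have ho : orderOf y = orderOf x := by
    rw [← Nat.card_zpowers, ← Nat.card_zpowers, h]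
  have hd : orderOf x ∣ 54 := orderOf_dvd_of_pow_eq_one h54
  rw [← hj', orderOf_pow, Nat.div_eq_self] at ho
  obtain ⟨k, -, hk⟩ := arith (orderOf x) (Nat.mem_divisors.2 ⟨hd, by norm_num⟩) (j % 54)
    (Nat.mod_lt _ (by norm_num)) (ho.resolve_left (orderOf_pos x).ne')
  have hk' := conj_iter hc k
  rcases hk with hk | hk
  · left
    rw [← hj', ← pow_mod_orderOf, hk, pow_mod_orderOf]
    exact hk'.symm
  · right
    have : x ^ (j % 54) * x ^ 7 ^ k = 1 := by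
      rw [← pow_add, ← pow_mod_orderOf, hk, pow_zero]
    rw [← hj', eq_inv_of_mul_eq_one_left this]
    obtain ⟨c, hc⟩ := isConj_iff.1 hk'.symm
    refine isConj_iff.2 ⟨c, ?_⟩
    have := congrArg (·⁻¹) hc
    simpa [mul_assoc] using this

end Pool.Agent.H.MP_b0fe5a_al
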