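import Pool.Agent.H.MP_b0fe5a_al.D

namespace Pool.Agent.H.MP_b0fe5a_al

def HH : Subgroup KK where
  carrier := {k | k.a = false ∧ k.b = false}
  mul_mem' := by
    intro k l
    simp only [Set.mem_setOf_eq]
    revert k l
    decide +kernel
  one_mem' := ⟨rfl, rfl⟩
  inv_mem' := by
    intro k
    simp only [Set.mem_setOf_eq]
    revert k
    decide +kernel

theorem mem_HH (k : KK) : k ∈ HH ↔ k.a = false ∧ k.b = false := Iff.rfl

def PP : Subgroup GG := HH.comap SemidirectProduct.rightHom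

theorem mem_PP (g : GG) : g ∈ PP ↔ g.right.a = false ∧ g.right.b = false := Iff.rfl

theorem PP_pgroup : IsPGroup 3 PP := by
  rintro ⟨g, hg⟩
  refine ⟨3, Subtype.ext ?_⟩
  have : ∀ k : KK, k.a = false ∧ k.b = false → k ^ 3 = 1 := by decide +kernel
  exact pow_eq_one_of g 3 (this _ ((mem_PP g).1 hg))

theorem kdec : ∀ k : KK, ∃ h : KK, (h.a = false ∧ h.b = false) ∧ (k * h) ^ 3 = k * h ∧
    (k * h = 1 → k.a = false ∧ k.b = false) := by decide +kernel

def SP : Sylow 3 GG where
  toSubgroup := PP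
  isPGroup' := PP_pgroup
  is_maximal' := by
    intro Q hQ hle
    refine le_antisymm (fun g hg => ?_) hle
    obtain ⟨h, h1, h2, h3⟩ := kdec g.right
    have hm : g * SemidirectProduct.inr h ∈ Q := Q.mul_mem hg (hle ((mem_PP _).2 h1))
    obtain ⟨m, hm'⟩ := hQ ⟨_, hm⟩
    have e : (g * SemidirectProduct.inr h) ^ 3 ^ m = 1 := congrArg Subtype.val hm'
    have e2 := congrArg SemidirectProduct.rightHom e
    rw [map_pow, map_one, map_mul, SemidirectProduct.rightHom_inr] at e2
    have e3 : ∀ m : ℕ, (g.right * h) ^ 3 ^ m = g.right * h := by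
      intro m
      induction m with
      | zero => simp
      | succ m ih => rw [pow_succ, pow_mul, ih, h2]
    exact (mem_PP g).2 (h3 (by rw [← e3 m]; exact e2))

def y0 : NN := ⟨1, 0, 0, -1, 0, 0, 0, 1, 1, -1, 0, 0, 0, 0, 0, 0⟩

theorem not_conj (n : NN) (r : Fin 3) :
    n * act ⟨false, false, r⟩ (addZ (-1) y0) ≠ y0 * n ∧
      n * act ⟨false, false, r⟩ (addZ (-1) y0) ≠ y0⁻¹ * n := by
  have hal : (act ⟨false, false, r⟩ (addZ (-1) y0)).al = 1 := by revert r; decide
  have ne : (1 : F) ≠ 0 := by decide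
  constructor
  · intro h
    fin_cases r
    · have e : act ⟨false, false, 0⟩ (addZ (-1) y0) =
          ⟨1, -1, 0, -1, 0, 0, 0, 1, 1, -1, 0, 0, 0, 0, 0, 0⟩ := by decide
      have h' : n * act ⟨false, false, 0⟩ (addZ (-1) y0) = y0 * n := h
      rw [e] at h'
      have a := congrArg NN.ze h'
      have b := congrArg NN.f0 h'
      have c := congrArg NN.f1 h'
      have d := congrArg NN.f2 h'
      simp only [mul_def, y0, b0, c0, c1, c2] at a b c d
      apply ne
      grind [h3]
    · have e : (act ⟨false, false, 1⟩ (addZ (-1) y0)).p0 = -1 := by decide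
      have h' : n * act ⟨false, false, 1⟩ (addZ (-1) y0) = y0 * n := h
      have a := congrArg NN.p0 h'
      simp only [mul_def, e] at a
      simp only [y0] at a
      apply ne
      grind [h3]
    · have e : (act ⟨false, false, 2⟩ (addZ (-1) y0)).p1 = -1 := by decide
      have h' : n * act ⟨false, false, 2⟩ (addZ (-1) y0) = y0 * n := h
      have a := congrArg NN.p1 h'
      simp only [mul_def, e] at a
      simp only [y0] at a
      apply ne
      grind [h3]
  · intro h
    have a := congrArg NN.al h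
    simp only [mul_def, inv_def, hal] at a
    simp only [y0] at a
    apply ne
    grind [h3]

theorem not_cut : ¬ ∀ x y : ↥(SP : Subgroup GG),
    Subgroup.zpowers y = Subgroup.zpowers x → IsConj y x ∨ IsConj y x⁻¹ := by
  intro H
  let x : ↥(SP : Subgroup GG) := ⟨⟨y0, 1⟩, (mem_PP _).2 ⟨rfl, rfl⟩⟩
  have h9 : x ^ 9 = 1 := Subtype.ext (pow_eq_one_of (⟨y0, 1⟩ : GG) 1 (one_pow 1))
  have hz : Subgroup.zpowers (x ^ 4) = Subgroup.zpowers x := by
    apply le_antisymm
    · exact Subgroup.zpowers_le.2 (Subgroup.pow_mem _ (Subgroup.mem_zpowers x) 4)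
    · refine Subgroup.zpowers_le.2 ?_
      have : (x ^ 4) ^ 7 = x := by
        rw [← pow_mul, pow_eq_pow_mod _ h9]; exact pow_one x
      have h := Subgroup.pow_mem _ (Subgroup.mem_zpowers (x ^ 4)) 7
      rwa [this] at h
  have h4 : ((x ^ 4 : ↥(SP : Subgroup GG)) : GG) = ⟨addZ (-1) y0, 1⟩ := by
    change (⟨y0, 1⟩ : GG) ^ 4 = _
    rw [gpow (act_one _), pow4, one_pow]; rfl
  have key : ∀ (z : ↥(SP : Subgroup GG)) (w : NN), (z : GG) = ⟨w, 1⟩ → IsConj (x ^ 4) z →
      ∃ (n : NN) (r : Fin 3), n * act ⟨false, false, r⟩ (addZ (-1) y0) = w * n := by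
    intro z w hw hc
    obtain ⟨⟨⟨n, a, b, r⟩, hc1⟩, hc⟩ := isConj_iff.1 hc
    obtain ⟨ha, hb⟩ := (mem_PP _).1 hc1
    change a = false at ha
    change b = false at hb
    subst ha hb
    rw [mul_inv_eq_iff_eq_mul] at hc
    have e := congrArg Subtype.val hc
    rw [Subgroup.coe_mul, Subgroup.coe_mul, h4, hw] at e
    have e2 := congrArg SemidirectProduct.left e
    refine ⟨n, r, ?_⟩
    change n * act _ _ = w * act 1 n at e2
    rwa [act_one] at e2
  rcases H x (x ^ 4) hz with h | h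
  · obtain ⟨n, r, e⟩ := key x y0 rfl h
    exact (not_conj n r).1 e
  · obtain ⟨n, r, e⟩ := key x⁻¹ y0⁻¹ (by
      change (⟨y0, 1⟩ : GG)⁻¹ = _
      rw [inv_eq_iff_mul_eq_one, gmul, act_one, mul_inv_cancel, mul_one]; rfl) h
    exact (not_conj n r).2 e

end Pool.Agent.H.MP_b0fe5a_al
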